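import Pool.Agent.R571.TI.Final

/-!
# The sharp Turán type inequality `‖P''‖ ≥ C_n ‖P‖` for odd `n ≥ 7`

For `n = 2m + 1 ≥ 7` the best constant on the class of real polynomials of degree exactly `n` with
all zeros in `[-1,1]` is `‖Q_m''‖ / ‖Q_m‖`, `Q_m = (1 - x)^m (1 + x)^(m+1)`, and the extremal
polynomials are exactly `c Q_m(x)` and `c Q_m(-x)`, `c ≠ 0`.
-/

namespace Pool.Agent.Results.MP_d240f8_an.SharpTuranOddDegree

open Polynomial

/-- `‖P‖ = max_{x ∈ [-1,1]} |P(x)|` (the supremum of a continuous function over a compact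
interval). -/
noncomputable def supNorm (P : ℝ[X]) : ℝ := sSup ((fun x : ℝ => |P.eval x|) '' Set.Icc (-1) 1)

/-- The class `P_n`: real polynomials of degree exactly `n` all of whose `n` zeros (counted with
multiplicity) lie in `[-1,1]`. -/
def ClassP (n : ℕ) : Set ℝ[X] :=
  {P | P ≠ 0 ∧ P.natDegree = n ∧ Multiset.card P.roots = n ∧ ∀ r ∈ P.roots, -1 ≤ r ∧ r ≤ 1}

/-- `C_n`, the infimum of `‖P''‖ / ‖P‖` over `P ∈ P_n`. -/
noncomputable def bestC (n : ℕ) : ℝ :=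
  sInf {r : ℝ | ∃ P ∈ ClassP n, r = supNorm (derivative (derivative P)) / supNorm P}

/-- `Q_m(x) = (1 - x)^m (1 + x)^(m+1)`. -/
noncomputable def Q (m : ℕ) : ℝ[X] := (1 - X) ^ m * (1 + X) ^ (m + 1)

/-- For every `m ≥ 3`, with `n = 2m + 1`: `Q_m` belongs to the class, `C_n = ‖Q_m''‖/‖Q_m‖`, and a
polynomial of the class is extremal iff it is `c Q_m(x)` or `c Q_m(-x)` with `c ≠ 0`. -/
theorem result (m : ℕ) (hm : 3 ≤ m) :
    Q m ∈ ClassP (2 * m + 1) ∧
    bestC (2 * m + 1) = supNorm (derivative (derivative (Q m))) / supNorm (Q m) ∧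
    (∀ P ∈ ClassP (2 * m + 1),
      bestC (2 * m + 1) * supNorm P ≤ supNorm (derivative (derivative P))) ∧
    ∀ P ∈ ClassP (2 * m + 1),
      (supNorm (derivative (derivative P)) = bestC (2 * m + 1) * supNorm P ↔
        ∃ c : ℝ, c ≠ 0 ∧ (P = C c * Q m ∨ P = C c * (Q m).comp (-X))) :=
  ⟨Pool.Agent.R571.TI.Qp_inPn m, Pool.Agent.R571.TI.main m hm⟩

end Pool.Agent.Results.MP_d240f8_an.SharpTuranOddDegree
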